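import Mathlib

set_option autoImplicit false
set_option linter.unusedSectionVars false

namespace Pool.Agent.H27D

open Finset

section
variable {α β : Type} [Fintype α] [Fintype β] [DecidableEq α] [DecidableEq β]

/-- indicator -/
def ind (S : β → Finset α) (b : β) (x : α) : ℤ := if x ∈ S b then 1 else 0

/-- symmetric design, in the form used in the proofs -/
structure Des (S : β → Finset α) (k lam : ℤ) : Prop where
  size : ∀ b, ((S b).card : ℤ) = k
  gram : ∀ x y, ∑ b, ind S b x * ind S b y = if x = y then k else lam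
  tot : (Fintype.card β : ℤ) * lam = k * (k - 1) + lam

lemma ind_sq (S : β → Finset α) (b : β) (x : α) : ind S b x * ind S b x = ind S b x := by
  unfold ind; split_ifs <;> simp

lemma card_inter (S : β → Finset α) (Y : Finset α) (b : β) :
    ((Y ∩ S b).card : ℤ) = ∑ y ∈ Y, ind S b y := by
  rw [← Finset.filter_mem_eq_inter, Finset.natCast_card_filter]
  rfl

lemma inner_sum {S : β → Finset α} {k lam : ℤ} (h : Des S k lam) (Y : Finset α) (x : α) :
    ∑ b, ind S b x * ((Y ∩ S b).card : ℤ) = lam * Y.card + if x ∈ Y then (k - lam) else 0 := by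
  have h1 : ∀ b, ind S b x * ((Y ∩ S b).card : ℤ) = ∑ y ∈ Y, ind S b x * ind S b y := by
    intro b; rw [card_inter, Finset.mul_sum]
  rw [Finset.sum_congr rfl (fun b _ => h1 b), Finset.sum_comm]
  rw [Finset.sum_congr rfl (fun y _ => h.gram x y)]
  have h2 : ∀ y ∈ Y, (if x = y then k else lam) = lam + (if x = y then (k - lam) else 0) := by
    intro y _; split_ifs <;> ring
  rw [Finset.sum_congr rfl h2, Finset.sum_add_distrib]
  simp [mul_comm]

lemma sum_inter {S : β → Finset α} {k lam : ℤ} (h : Des S k lam) (Y : Finset α) :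
    ∑ b, ((Y ∩ S b).card : ℤ) = Y.card * k := by
  simp_rw [card_inter]
  rw [Finset.sum_comm]
  have h1 : ∀ y ∈ Y, ∑ b, ind S b y = k := by
    intro y _
    have := h.gram y y
    simp only [ind_sq, if_true] at this
    exact this
  rw [Finset.sum_congr rfl h1]
  simp

lemma sum_inter_sq {S : β → Finset α} {k lam : ℤ} (h : Des S k lam) (Y : Finset α) :
    ∑ b, ((Y ∩ S b).card : ℤ) ^ 2 = Y.card * k + Y.card * (Y.card - 1) * lam := by
  have h1 : ∀ b, ((Y ∩ S b).card : ℤ) ^ 2 = ∑ x ∈ Y, ind S b x * ((Y ∩ S b).card : ℤ) := by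
    intro b
    rw [← Finset.sum_mul, ← card_inter, sq]
  rw [Finset.sum_congr rfl (fun b _ => h1 b), Finset.sum_comm]
  rw [Finset.sum_congr rfl (fun x _ => inner_sum h Y x)]
  rw [Finset.sum_add_distrib]
  have : ∑ x ∈ Y, (if x ∈ Y then (k - lam) else 0) = Y.card * (k - lam) := by
    rw [Finset.sum_congr rfl (g := fun _ => (k - lam))]
    · simp only [Finset.sum_const, nsmul_eq_mul]
    · intro x hx; simp [hx]
  rw [this]
  simp only [Finset.sum_const, nsmul_eq_mul]
  ring

/-- defect of a block with respect to `X` -/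
def dd (S : β → Finset α) (lam : ℤ) (X : Finset α) (b : β) : ℤ := ((X ∩ S b).card : ℤ) - lam

lemma sum_dd {S : β → Finset α} {k lam : ℤ} (h : Des S k lam) (X : Finset α)
    (hX : (X.card : ℤ) = k) : ∑ b, dd S lam X b = k - lam := by
  unfold dd
  rw [Finset.sum_sub_distrib, sum_inter h, hX]
  simp only [Finset.sum_const, Finset.card_univ, nsmul_eq_mul]
  linarith [h.tot]

lemma sum_dd_sq {S : β → Finset α} {k lam : ℤ} (h : Des S k lam) (X : Finset α)
    (hX : (X.card : ℤ) = k) : ∑ b, (dd S lam X b) ^ 2 = (k - lam) ^ 2 := by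
  have h1 : ∀ b, (dd S lam X b) ^ 2 =
      ((X ∩ S b).card : ℤ) ^ 2 - 2 * lam * ((X ∩ S b).card : ℤ) + lam ^ 2 := by
    intro b; unfold dd; ring
  rw [Finset.sum_congr rfl (fun b _ => h1 b), Finset.sum_add_distrib, Finset.sum_sub_distrib,
    ← Finset.mul_sum, sum_inter h, sum_inter_sq h, hX]
  simp only [Finset.sum_const, Finset.card_univ, nsmul_eq_mul]
  have := h.tot
  linear_combination lam * this

lemma sum_ind_dd {S : β → Finset α} {k lam : ℤ} (h : Des S k lam) (X : Finset α)
    (hX : (X.card : ℤ) = k) (x : α) :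
    ∑ b, ind S b x * dd S lam X b = if x ∈ X then (k - lam) else 0 := by
  have h1 : ∀ b, ind S b x * dd S lam X b =
      ind S b x * ((X ∩ S b).card : ℤ) - lam * (ind S b x * ind S b x) := by
    intro b; rw [ind_sq]; unfold dd; ring
  rw [Finset.sum_congr rfl (fun b _ => h1 b), Finset.sum_sub_distrib, ← Finset.mul_sum,
    inner_sum h, h.gram x x, hX]
  simp only [if_true]
  ring

lemma block_inter {S : β → Finset α} {k lam : ℤ} (h : Des S k lam) {b c : β} (hbc : b ≠ c) :
    ((S c ∩ S b).card : ℤ) = lam := by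
  have h1 := sum_dd_sq h (S c) (h.size c)
  have h2 : dd S lam (S c) c = k - lam := by
    unfold dd; rw [Finset.inter_self, h.size]
  rw [← Finset.add_sum_erase _ _ (Finset.mem_univ c), h2] at h1
  have h3 : ∑ x ∈ univ.erase c, dd S lam (S c) x ^ 2 = 0 := by linarith
  rw [Finset.sum_eq_zero_iff_of_nonneg (fun i _ => sq_nonneg _)] at h3
  have h4 := h3 b (Finset.mem_erase.2 ⟨hbc, Finset.mem_univ b⟩)
  have h5 : dd S lam (S c) b = 0 := by
    simpa using h4
  unfold dd at h5
  linarith

lemma dd_ge {S : β → Finset α} {lam : ℤ} (X : Finset α) (b : β) : -lam ≤ dd S lam X b := by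
  unfold dd
  have : (0 : ℤ) ≤ ((X ∩ S b).card : ℤ) := by positivity
  linarith

lemma dd_le {S : β → Finset α} {k lam : ℤ} (h : Des S k lam) (X : Finset α)
    (hX : (X.card : ℤ) = k) (hne : ∀ b, S b ≠ X) (b : β) : dd S lam X b ≤ k - lam - 1 := by
  unfold dd
  have h1 : (X ∩ S b).card ≤ (S b).card := Finset.card_le_card Finset.inter_subset_right
  have h2 : (X ∩ S b).card ≠ (S b).card := by
    intro he
    have h3 : X ∩ S b = S b := Finset.eq_of_subset_of_card_le Finset.inter_subset_right he.ge
    have h4 : S b ⊆ X := by rw [← h3]; exact Finset.inter_subset_left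
    have h5 : S b = X := by
      apply Finset.eq_of_subset_of_card_le h4
      have := h.size b
      have h6 : ((X.card : ℕ) : ℤ) = ((S b).card : ℕ) := by rw [hX, this]
      exact_mod_cast h6.le
    exact hne b h5
  have h3 : (X ∩ S b).card < (S b).card := lt_of_le_of_ne h1 h2
  have h4 : ((X ∩ S b).card : ℤ) + 1 ≤ ((S b).card : ℤ) := by exact_mod_cast h3
  rw [h.size] at h4
  linarith

end

end Pool.Agent.H27D
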