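import Pool.Agent.H27D.Local

set_option autoImplicit false
set_option linter.unusedSectionVars false

namespace Pool.Agent.H27D

open Finset

lemma des_of {v k lam : ℕ} {B : Fin v → Finset (Fin v)} (hk : 2 ≤ k) (hv : 0 < v)
    (hs : ∀ i, (B i).card = k)
    (hp : ∀ x y : Fin v, x ≠ y →
      (Finset.univ.filter (fun i => x ∈ B i ∧ y ∈ B i)).card = lam) :
    Des B (k : ℤ) (lam : ℤ) ∧ 1 ≤ lam := by
  have hpair : ∀ x y : Fin v, x ≠ y → ∑ b, ind B b x * ind B b y = (lam : ℤ) := by
    intro x y hxy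
    rw [← hp x y hxy, Finset.natCast_card_filter]
    apply Finset.sum_congr rfl
    intro b _
    unfold ind
    by_cases h1 : x ∈ B b <;> by_cases h2 : y ∈ B b <;> simp [h1, h2]
  have hrow : ∀ b, ∑ x, ind B b x = (k : ℤ) := by
    intro b
    have := card_inter B (Finset.univ) b
    rw [Finset.univ_inter, hs b] at this
    exact this.symm
  have hr : ∀ x : Fin v, ((k : ℤ) - 1) * ∑ b, ind B b x = ((v : ℤ) - 1) * lam := by
    intro x
    have h1 : ∑ y ∈ Finset.univ.erase x, ∑ b, ind B b x * ind B b y = ((v : ℤ) - 1) * lam := by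
      rw [Finset.sum_congr rfl (fun y hy => hpair x y (Finset.ne_of_mem_erase hy).symm)]
      rw [Finset.sum_const, Finset.card_erase_of_mem (Finset.mem_univ x), Finset.card_univ,
        Fintype.card_fin, nsmul_eq_mul]
      push_cast [Nat.one_le_iff_ne_zero.2 hv.ne']
      ring
    have h2 : ∑ y, ∑ b, ind B b x * ind B b y = (k : ℤ) * ∑ b, ind B b x := by
      rw [Finset.sum_comm, Finset.mul_sum]
      apply Finset.sum_congr rfl
      intro b _
      rw [← Finset.mul_sum, hrow b]; ring
    rw [← Finset.add_sum_erase _ _ (Finset.mem_univ x), h1] at h2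
    simp only [ind_sq] at h2
    linarith
  have hsum : ∑ x : Fin v, ∑ b, ind B b x = (v : ℤ) * k := by
    rw [Finset.sum_comm, Finset.sum_congr rfl (fun b _ => hrow b)]
    simp
  have htot : ((v : ℤ) - 1) * lam = (k : ℤ) * (k - 1) := by
    have h1 : ∑ x : Fin v, ((k : ℤ) - 1) * ∑ b, ind B b x = (v : ℤ) * (((v : ℤ) - 1) * lam) := by
      rw [Finset.sum_congr rfl (fun x _ => hr x)]
      simp
    rw [← Finset.mul_sum, hsum] at h1
    have hv' : (0 : ℤ) < v := by exact_mod_cast hv
    have h2 : (v : ℤ) * (((v : ℤ) - 1) * lam) = (v : ℤ) * ((k : ℤ) * (k - 1)) := by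
      rw [← h1]; ring
    exact mul_left_cancel₀ hv'.ne' h2
  have hk' : (2 : ℤ) ≤ k := by exact_mod_cast hk
  have hrep : ∀ x : Fin v, ∑ b, ind B b x = (k : ℤ) := by
    intro x
    have h1 := hr x
    rw [htot] at h1
    have h2 : ((k : ℤ) - 1) * ∑ b, ind B b x = ((k : ℤ) - 1) * k := by rw [h1]; ring
    exact mul_left_cancel₀ (by omega) h2
  refine ⟨⟨fun b => by rw [hs b], ?_, ?_⟩, ?_⟩
  · intro x y
    by_cases hxy : x = y
    · subst hxy
      simp only [ind_sq, if_true]
      exact hrep x
    · rw [if_neg hxy]; exact hpair x y hxy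
  · rw [Fintype.card_fin]
    linarith
  · rcases Nat.eq_zero_or_pos lam with h0 | h0
    · exfalso
      rw [h0] at htot
      simp at htot
      rcases htot with h | h
      · omega
      · have : (k : ℤ) = 1 := by linarith
        omega
    · exact h0

end Pool.Agent.H27D
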