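import Pool.Agent.H27D.Base

set_option autoImplicit false
set_option linter.unusedSectionVars false

namespace Pool.Agent.H27D

open Finset

section
variable {α β : Type} [Fintype α] [Fintype β] [DecidableEq α] [DecidableEq β]

/-- the blocks which do not meet `X` in `lam` points -/
def supp (S : β → Finset α) (lam : ℤ) (X : Finset α) : Finset β :=
  univ.filter (fun b => dd S lam X b ≠ 0)

lemma sum_supp {S : β → Finset α} {k lam : ℤ} (h : Des S k lam) (X : Finset α)
    (hX : (X.card : ℤ) = k) : ∑ b ∈ supp S lam X, dd S lam X b = k - lam := by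
  rw [← sum_dd h X hX]
  unfold supp
  exact Finset.sum_filter_ne_zero _

lemma sum_supp_sq {S : β → Finset α} {k lam : ℤ} (h : Des S k lam) (X : Finset α)
    (hX : (X.card : ℤ) = k) : ∑ b ∈ supp S lam X, (dd S lam X b) ^ 2 = (k - lam) ^ 2 := by
  rw [← sum_dd_sq h X hX]
  unfold supp
  apply Finset.sum_subset (Finset.filter_subset _ _)
  intro b _ hb
  simp only [Finset.mem_filter, Finset.mem_univ, true_and, not_not] at hb
  rw [hb]; ring

/-- bound from the first two moments -/
lemma moment_bound {S : β → Finset α} {k lam : ℤ} (h : Des S k lam) (X : Finset α)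
    (hX : (X.card : ℤ) = k) (D : ℤ) (hD : ∀ b, dd S lam X b ≤ D) :
    (k - lam) * (k - D) ≤ (supp S lam X).card * (D * lam) := by
  have h1 : 0 ≤ ∑ b ∈ supp S lam X, (D - dd S lam X b) * (dd S lam X b + lam) := by
    apply Finset.sum_nonneg
    intro b _
    apply mul_nonneg
    · linarith [hD b]
    · linarith [dd_ge (S := S) (lam := lam) X b]
  have h2 : ∑ b ∈ supp S lam X, (D - dd S lam X b) * (dd S lam X b + lam) =
      (supp S lam X).card * (D * lam) + (D - lam) * (k - lam) - (k - lam) ^ 2 := by
    rw [← sum_supp_sq h X hX]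
    conv_rhs => rw [← sum_supp h X hX]
    rw [Finset.mul_sum, Finset.cast_card, Finset.sum_mul, ← Finset.sum_add_distrib,
      ← Finset.sum_sub_distrib]
    apply Finset.sum_congr rfl
    intro b _
    ring
  rw [h2] at h1
  nlinarith [h1]

lemma exists_max {S : β → Finset α} {k lam : ℤ} (h : Des S k lam) (X : Finset α)
    (hX : (X.card : ℤ) = k) (hn : 0 < k - lam) :
    ∃ b, (∀ c, dd S lam X c ≤ dd S lam X b) ∧ 1 ≤ dd S lam X b := by
  have hne : (univ : Finset β).Nonempty := by
    by_contra hemp
    rw [Finset.not_nonempty_iff_eq_empty] at hemp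
    have := sum_dd h X hX
    rw [hemp] at this
    simp at this
    omega
  obtain ⟨b, _, hb⟩ := Finset.exists_max_image univ (dd S lam X) hne
  refine ⟨b, fun c => hb c (Finset.mem_univ c), ?_⟩
  by_contra hlt
  have h0 : ∀ c, dd S lam X c ≤ 0 := fun c => le_trans (hb c (Finset.mem_univ c)) (by omega)
  have h1 : ∑ c, dd S lam X c ≤ 0 := Finset.sum_nonpos (fun c _ => h0 c)
  rw [sum_dd h X hX] at h1
  omega

/-- number of blocks containing exactly one point of `Y` -/
lemma one_point {S : β → Finset α} {k lam : ℤ} (h : Des S k lam) (Y : Finset α) :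
    (Y.card : ℤ) * (k - (Y.card - 1) * lam) ≤
      (univ.filter (fun b => (Y ∩ S b).card = 1)).card := by
  have h1 : ∑ b, (2 * ((Y ∩ S b).card : ℤ) - ((Y ∩ S b).card : ℤ) ^ 2) =
      (Y.card : ℤ) * (k - (Y.card - 1) * lam) := by
    rw [Finset.sum_sub_distrib, ← Finset.mul_sum, sum_inter h, sum_inter_sq h]
    ring
  rw [← h1, Finset.natCast_card_filter]
  apply Finset.sum_le_sum
  intro b _
  split_ifs with hb
  · rw [hb]; norm_num
  · rcases Nat.lt_or_ge (Y ∩ S b).card 1 with h0 | h0
    · have : (Y ∩ S b).card = 0 := by omega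
      rw [this]; norm_num
    · have h2 : 2 ≤ (Y ∩ S b).card := by omega
      have h3 : (2 : ℤ) ≤ ((Y ∩ S b).card : ℤ) := by exact_mod_cast h2
      nlinarith

/-- the same, exactly, if `Y` has at most two points -/
lemma one_point_eq {S : β → Finset α} {k lam : ℤ} (h : Des S k lam) (Y : Finset α)
    (hY : Y.card ≤ 2) :
    ((univ.filter (fun b => (Y ∩ S b).card = 1)).card : ℤ) =
      (Y.card : ℤ) * (k - (Y.card - 1) * lam) := by
  have h1 : ∑ b, (2 * ((Y ∩ S b).card : ℤ) - ((Y ∩ S b).card : ℤ) ^ 2) =
      (Y.card : ℤ) * (k - (Y.card - 1) * lam) := by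
    rw [Finset.sum_sub_distrib, ← Finset.mul_sum, sum_inter h, sum_inter_sq h]
    ring
  rw [← h1, Finset.natCast_card_filter]
  apply Finset.sum_congr rfl
  intro b _
  have h2 : (Y ∩ S b).card ≤ 2 := le_trans (Finset.card_le_card Finset.inter_subset_left) hY
  have h3 : (Y ∩ S b).card = 0 ∨ (Y ∩ S b).card = 1 ∨ (Y ∩ S b).card = 2 := by omega
  rcases h3 with h3 | h3 | h3 <;> rw [h3] <;> norm_num

lemma dd_split {S : β → Finset α} {k lam : ℤ} (h : Des S k lam) (X : Finset α)
    {b c : β} (hbc : c ≠ b) :
    dd S lam X c = (((X \ S b) ∩ S c).card : ℤ) - (((S b \ X) ∩ S c).card : ℤ) := by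
  have h1 := block_inter h hbc
  have h2 : (X ∩ S c).card = ((X ∩ S b) ∩ S c).card + ((X \ S b) ∩ S c).card := by
    rw [← Finset.card_union_of_disjoint]
    · congr 1
      ext x; simp only [Finset.mem_inter, Finset.mem_union, Finset.mem_sdiff]; tauto
    · rw [Finset.disjoint_left]
      intro x; simp only [Finset.mem_inter, Finset.mem_sdiff]; tauto
  have h3 : (S b ∩ S c).card = ((X ∩ S b) ∩ S c).card + ((S b \ X) ∩ S c).card := by
    rw [← Finset.card_union_of_disjoint]
    · congr 1
      ext x; simp only [Finset.mem_inter, Finset.mem_union, Finset.mem_sdiff]; tauto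
    · rw [Finset.disjoint_left]
      intro x; simp only [Finset.mem_inter, Finset.mem_sdiff]; tauto
  unfold dd
  rw [h2]
  rw [h3] at h1
  push_cast at h1 ⊢
  linarith

/-- the symmetric difference of `X` and a block -/
def sd (S : β → Finset α) (X : Finset α) (b : β) : Finset α := (X \ S b) ∪ (S b \ X)

lemma sd_inter (S : β → Finset α) (X : Finset α) (b c : β) :
    (sd S X b ∩ S c).card = ((X \ S b) ∩ S c).card + ((S b \ X) ∩ S c).card := by
  unfold sd
  rw [← Finset.card_union_of_disjoint]
  · congr 1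
    ext x; simp only [Finset.mem_inter, Finset.mem_union, Finset.mem_sdiff]; tauto
  · rw [Finset.disjoint_left]
    intro x; simp only [Finset.mem_inter, Finset.mem_sdiff]; tauto

lemma sd_card {S : β → Finset α} {k lam : ℤ} (h : Des S k lam) (X : Finset α)
    (hX : (X.card : ℤ) = k) (b : β) :
    ((sd S X b).card : ℤ) = 2 * (k - lam - dd S lam X b) := by
  have h1 : (sd S X b).card = (X \ S b).card + (S b \ X).card := by
    unfold sd
    rw [Finset.card_union_of_disjoint]
    rw [Finset.disjoint_left]
    intro x; simp only [Finset.mem_sdiff]; tauto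
  have h2 : (X \ S b).card + (X ∩ S b).card = X.card := Finset.card_sdiff_add_card_inter X (S b)
  have h3 : (S b \ X).card + (S b ∩ X).card = (S b).card :=
    Finset.card_sdiff_add_card_inter (S b) X
  rw [Finset.inter_comm] at h3
  have h4 := h.size b
  unfold dd
  rw [h1]
  push_cast
  have h2' : ((X \ S b).card : ℤ) + ((X ∩ S b).card : ℤ) = k := by
    rw [← hX]; exact_mod_cast h2
  have h3' : ((S b \ X).card : ℤ) + ((X ∩ S b).card : ℤ) = k := by
    rw [← h4]; exact_mod_cast h3
  linarith

lemma sd_inter_self {S : β → Finset α} {k lam : ℤ} (h : Des S k lam) (X : Finset α)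
    (b : β) : ((sd S X b ∩ S b).card : ℤ) = k - lam - dd S lam X b := by
  have h1 : sd S X b ∩ S b = S b \ X := by
    unfold sd
    ext x; simp only [Finset.mem_inter, Finset.mem_union, Finset.mem_sdiff]; tauto
  have h3 : (S b \ X).card + (S b ∩ X).card = (S b).card :=
    Finset.card_sdiff_add_card_inter (S b) X
  rw [Finset.inter_comm] at h3
  have h3' : ((S b \ X).card : ℤ) + ((X ∩ S b).card : ℤ) = k := by
    rw [← h.size b]; exact_mod_cast h3
  rw [h1]; unfold dd; linarith

/-- near a block -/
lemma near {S : β → Finset α} {k lam : ℤ} (h : Des S k lam) (X : Finset α)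
    (hX : (X.card : ℤ) = k) (b : β) (hb : 1 ≤ dd S lam X b) :
    univ.filter (fun c => (sd S X b ∩ S c).card = 1) ⊆ supp S lam X := by
  intro c hc
  simp only [Finset.mem_filter, Finset.mem_univ, true_and] at hc
  unfold supp
  simp only [Finset.mem_filter, Finset.mem_univ, true_and]
  by_cases hcb : c = b
  · subst hcb; omega
  · rw [dd_split h X hcb]
    rw [sd_inter] at hc
    omega

end

end Pool.Agent.H27D
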