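import Pool.Agent.H27D.Gap

set_option autoImplicit false
set_option linter.unusedSectionVars false

namespace Pool.Agent.H27D

open Finset

section
variable {α β : Type} [Fintype α] [Fintype β] [DecidableEq α] [DecidableEq β]

lemma sum_erase_dd {S : β → Finset α} {k lam : ℤ} (h : Des S k lam) (X : Finset α)
    (hX : (X.card : ℤ) = k) (b : β) (x : α) (hx : x ∈ S b) :
    ∑ c ∈ (supp S lam X).erase b, ind S c x * dd S lam X c =
      (if x ∈ X then (k - lam) else 0) - dd S lam X b := by
  have h1 := sum_ind_dd h X hX x
  rw [← Finset.add_sum_erase _ _ (Finset.mem_univ b)] at h1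
  have h2 : ind S b x = 1 := by unfold ind; simp [hx]
  rw [h2] at h1
  have h3 : ∑ c ∈ (supp S lam X).erase b, ind S c x * dd S lam X c =
      ∑ c ∈ univ.erase b, ind S c x * dd S lam X c := by
    apply Finset.sum_subset (Finset.erase_subset_erase _ (Finset.subset_univ _))
    intro c hc hc'
    have h4 : dd S lam X c = 0 := by
      by_contra hne
      apply hc'
      rw [Finset.mem_erase] at hc ⊢
      refine ⟨hc.1, ?_⟩
      unfold supp
      simp [hne]
    rw [h4]; ring
  rw [h3]
  linarith

/-- the local bound -/
lemma local_bound {S : β → Finset α} {k lam : ℤ} (h : Des S k lam) (hl : 1 ≤ lam)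
    (X : Finset α) (hX : (X.card : ℤ) = k) (b : β)
    (hb1 : 1 ≤ dd S lam X b) (hb2 : dd S lam X b ≤ k - lam - 1) :
    (k - lam - dd S lam X b) * dd S lam X b + lam * (lam + dd S lam X b) ≤
      lam ^ 2 * ((supp S lam X).card - 1) := by
  set D := dd S lam X b with hD
  set E := (supp S lam X).erase b with hE
  have hbs : b ∈ supp S lam X := by
    unfold supp
    simp only [Finset.mem_filter, Finset.mem_univ, true_and]
    omega
  have hEc : (E.card : ℤ) = (supp S lam X).card - 1 := by
    rw [hE, Finset.card_erase_of_mem hbs]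
    have : 1 ≤ (supp S lam X).card := Finset.card_pos.2 ⟨b, hbs⟩
    push_cast [this]
    ring
  -- total count
  have htot : ∑ x ∈ S b, ∑ c ∈ E, ind S c x = lam * E.card := by
    rw [Finset.sum_comm]
    have : ∀ c ∈ E, ∑ x ∈ S b, ind S c x = lam := by
      intro c hc
      rw [← card_inter]
      apply block_inter h
      rw [hE, Finset.mem_erase] at hc
      exact hc.1
    rw [Finset.sum_congr rfl this]
    simp [mul_comm]
  -- outside
  have hout : ∀ x ∈ S b \ X, D ≤ lam * ∑ c ∈ E, ind S c x := by
    intro x hx
    rw [Finset.mem_sdiff] at hx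
    have h1 := sum_erase_dd h X hX b x hx.1
    rw [if_neg hx.2] at h1
    have h2 : ∑ c ∈ E, ind S c x * (-lam) ≤ ∑ c ∈ E, ind S c x * dd S lam X c := by
      apply Finset.sum_le_sum
      intro c _
      apply mul_le_mul_of_nonneg_left (dd_ge X c)
      unfold ind; split_ifs <;> norm_num
    rw [← Finset.sum_mul] at h2
    linarith
  have hin : ∀ x ∈ S b ∩ X, 1 ≤ ∑ c ∈ E, ind S c x := by
    intro x hx
    rw [Finset.mem_inter] at hx
    have h1 := sum_erase_dd h X hX b x hx.1
    rw [if_pos hx.2] at h1
    by_contra hlt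
    have h0 : 0 ≤ ∑ c ∈ E, ind S c x := by
      apply Finset.sum_nonneg
      intro c _
      unfold ind; split_ifs <;> norm_num
    have h2 : ∑ c ∈ E, ind S c x = 0 := by omega
    rw [Finset.sum_eq_zero_iff_of_nonneg] at h2
    · have h3 : ∑ c ∈ E, ind S c x * dd S lam X c = 0 := by
        apply Finset.sum_eq_zero
        intro c hc
        rw [h2 c hc]; ring
      rw [hE] at h3
      rw [h3] at h1
      omega
    · intro c _
      unfold ind; split_ifs <;> norm_num
  have hsplit : ∑ x ∈ S b, ∑ c ∈ E, ind S c x =
      ∑ x ∈ S b \ X, ∑ c ∈ E, ind S c x + ∑ x ∈ S b ∩ X, ∑ c ∈ E, ind S c x := by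
    rw [← Finset.sum_union]
    · congr 1
      ext x; simp only [Finset.mem_inter, Finset.mem_union, Finset.mem_sdiff]; tauto
    · rw [Finset.disjoint_left]
      intro x; simp only [Finset.mem_inter, Finset.mem_sdiff]; tauto
  have h3 : (S b \ X).card + (S b ∩ X).card = (S b).card :=
    Finset.card_sdiff_add_card_inter (S b) X
  have hin' : ((S b ∩ X).card : ℤ) = lam + D := by
    rw [hD]; unfold dd; rw [Finset.inter_comm]; ring
  have hout' : ((S b \ X).card : ℤ) = k - lam - D := by
    have : ((S b \ X).card : ℤ) + ((S b ∩ X).card : ℤ) = k := by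
      rw [← h.size b]; exact_mod_cast h3
    linarith
  have e1 : (k - lam - D) * D ≤ lam * ∑ x ∈ S b \ X, ∑ c ∈ E, ind S c x := by
    rw [← hout', Finset.mul_sum]
    have := Finset.card_nsmul_le_sum (S b \ X) (fun x => lam * ∑ c ∈ E, ind S c x) D hout
    simpa using this
  have e2 : lam + D ≤ ∑ x ∈ S b ∩ X, ∑ c ∈ E, ind S c x := by
    rw [← hin']
    have := Finset.card_nsmul_le_sum (S b ∩ X) (fun x => ∑ c ∈ E, ind S c x) 1 hin
    simpa using this
  have e3 : lam * (lam + D) ≤ lam * ∑ x ∈ S b ∩ X, ∑ c ∈ E, ind S c x :=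
    mul_le_mul_of_nonneg_left e2 (by linarith)
  calc (k - lam - D) * D + lam * (lam + D)
      ≤ lam * ∑ x ∈ S b \ X, ∑ c ∈ E, ind S c x + lam * ∑ x ∈ S b ∩ X, ∑ c ∈ E, ind S c x := by
        linarith
    _ = lam * ∑ x ∈ S b, ∑ c ∈ E, ind S c x := by rw [hsplit]; ring
    _ = lam ^ 2 * ((supp S lam X).card - 1) := by rw [htot, hEc]; ring

/-- exact value for a set at distance one from a block -/
lemma exact_one {S : β → Finset α} {k lam : ℤ} (h : Des S k lam) 
    (X : Finset α) (hX : (X.card : ℤ) = k) (b : β) (hn : 2 ≤ k - lam)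
    (hb : dd S lam X b = k - lam - 1) :
    ((supp S lam X).card : ℤ) = 2 * (k - lam) := by
  have h1 := sd_card h X hX b
  rw [hb] at h1
  have h2 : (sd S X b).card = 2 := by
    have : ((sd S X b).card : ℤ) = 2 := by rw [h1]; ring
    exact_mod_cast this
  have h3 := one_point_eq h (sd S X b) (by omega)
  have h4 : univ.filter (fun c => (sd S X b ∩ S c).card = 1) = supp S lam X := by
    apply Finset.Subset.antisymm (near h X hX b (by omega))
    intro c hc
    unfold supp at hc
    simp only [Finset.mem_filter, Finset.mem_univ, true_and] at hc ⊢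
    by_cases hcb : c = b
    · subst hcb
      have h5 := sd_inter_self h X c
      rw [hb] at h5
      omega
    · rw [dd_split h X hcb] at hc
      have h6 := sd_inter S X b c
      have h7 : (sd S X b ∩ S c).card ≤ 2 := by
        rw [← h2]; exact Finset.card_le_card Finset.inter_subset_left
      have h8 : ((X \ S b) ∩ S c).card ≤ 1 := by
        have h9 : (X \ S b).card = 1 := by
          have h10 : (X \ S b).card + (X ∩ S b).card = X.card :=
            Finset.card_sdiff_add_card_inter X (S b)
          have h11 : ((X \ S b).card : ℤ) + ((X ∩ S b).card : ℤ) = k := by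
            rw [← hX]; exact_mod_cast h10
          unfold dd at hb
          omega
        rw [← h9]; exact Finset.card_le_card Finset.inter_subset_left
      have h12 : ((S b \ X) ∩ S c).card ≤ 1 := by
        have h9 : (S b \ X).card = 1 := by
          have h10 : (S b \ X).card + (S b ∩ X).card = (S b).card :=
            Finset.card_sdiff_add_card_inter (S b) X
          rw [Finset.inter_comm] at h10
          have h11 : ((S b \ X).card : ℤ) + ((X ∩ S b).card : ℤ) = k := by
            rw [← h.size b]; exact_mod_cast h10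
          unfold dd at hb
          omega
        rw [← h9]; exact Finset.card_le_card Finset.inter_subset_left
      omega
  rw [h4, h2] at h3
  rw [h3]
  push_cast
  ring

/-- main inequality -/
theorem main_bound {S : β → Finset α} {k lam : ℤ} (h : Des S k lam) (hl : 1 ≤ lam)
    (hk : lam * (2 * lam + 1) ^ 2 ≤ k)
    (X : Finset α) (hX : (X.card : ℤ) = k) (hne : ∀ b, S b ≠ X) :
    2 * (k - lam) < (supp S lam X).card ∨
      (((supp S lam X).card : ℤ) = 2 * (k - lam) ∧ ∃ b, dd S lam X b = k - lam - 1) := by
  have hkl : 8 * lam ≤ k - lam := by nlinarith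
  obtain ⟨b, hmax, hb1⟩ := exists_max h X hX (by linarith)
  have hb2 := dd_le h X hX hne b
  set D := dd S lam X b with hD
  set T := ((supp S lam X).card : ℤ) with hT
  by_cases hs1 : D = k - lam - 1
  · right
    exact ⟨exact_one h X hX b (by linarith) hs1, b, hs1⟩
  left
  have hs2 : 2 ≤ k - lam - D := by omega
  by_cases hnear : 2 * (k - lam - D) * lam ≤ k - lam
  · -- near a block
    have h1 := near h X hX b hb1
    have h2 : b ∉ univ.filter (fun c => (sd S X b ∩ S c).card = 1) := by
      simp only [Finset.mem_filter, Finset.mem_univ, true_and]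
      have := sd_inter_self h X b
      rw [← hD] at this
      omega
    have h3 : insert b (univ.filter (fun c => (sd S X b ∩ S c).card = 1)) ⊆ supp S lam X := by
      apply Finset.insert_subset _ h1
      unfold supp
      simp only [Finset.mem_filter, Finset.mem_univ, true_and]
      omega
    have h4 := Finset.card_le_card h3
    rw [Finset.card_insert_of_notMem h2] at h4
    have h5 := one_point h (sd S X b)
    rw [sd_card h X hX b, ← hD] at h5
    have h6 : ((univ.filter (fun c => (sd S X b ∩ S c).card = 1)).card : ℤ) + 1 ≤ T := by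
      rw [hT]; exact_mod_cast h4
    nlinarith
  · push Not at hnear
    by_cases hfar : (2 * lam + 1) * D < k
    · have h1 := moment_bound h X hX D hmax
      rw [← hT] at h1
      have h2 : 2 * lam * D < k - D := by linarith
      have h3 : 0 < D * lam := by positivity
      have h4 : 2 * (k - lam) * (D * lam) < (k - lam) * (k - D) := by nlinarith
      have h5 : 2 * (k - lam) * (D * lam) < T * (D * lam) := lt_of_lt_of_le h4 h1
      exact lt_of_mul_lt_mul_right h5 h3.le
    · push Not at hfar
      have h1 := local_bound h hl X hX b hb1 hb2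
      rw [← hD, ← hT] at h1
      -- D * (k - D) is large
      set M := 2 * lam + 1 with hM
      have hE : k ≤ M * (k - D) := by nlinarith
      have h2 : 0 ≤ (M * D - k) * (M * (k - D) - k) :=
        mul_nonneg (by linarith) (by linarith)
      have h3 : k ^ 2 * (2 * lam) ≤ M ^ 2 * (D * (k - D)) := by
        have : (M * D - k) * (M * (k - D) - k) = M ^ 2 * (D * (k - D)) - k ^ 2 * (M - 1) := by
          ring
        rw [this] at h2
        have hM1 : M - 1 = 2 * lam := by rw [hM]; ring
        rw [hM1] at h2
        linarith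
      have hk0 : 0 ≤ k := by linarith
      have h4 : lam * M ^ 2 * (2 * lam * k) ≤ k * (2 * lam * k) :=
        mul_le_mul_of_nonneg_right hk (mul_nonneg (by linarith) hk0)
      have h5 : M ^ 2 * (2 * lam ^ 2 * k) ≤ M ^ 2 * (D * (k - D)) := by nlinarith
      have hM2 : 0 < M ^ 2 := by positivity
      have h6 : 2 * lam ^ 2 * k ≤ D * (k - D) := le_of_mul_le_mul_left h5 hM2
      have h7 : 2 * lam ^ 2 * k + lam ^ 2 ≤ lam ^ 2 * (T - 1) := by nlinarith
      have h8 : lam ^ 2 * (2 * k + 1) ≤ lam ^ 2 * (T - 1) := by nlinarith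
      have hl2 : 0 < lam ^ 2 := by positivity
      have h9 : 2 * k + 1 ≤ T - 1 := le_of_mul_le_mul_left h8 hl2
      linarith

end

end Pool.Agent.H27D
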