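import Pool.Agent.H27D.Gap

set_option autoImplicit false
set_option linter.unusedSectionVars false

namespace Pool.Agent.H27D

open Finset

section
variable {α β : Type} [Fintype α] [Fintype β] [DecidableEq α] [DecidableEq β]

lemma des_gen {S : β → Finset α} {k lam : ℕ} (hk : 2 ≤ k)
    (hv : 0 < Fintype.card α) (hc : Fintype.card α = Fintype.card β)
    (hs : ∀ i, (S i).card = k)
    (hp : ∀ x y : α, x ≠ y →
      (Finset.univ.filter (fun i => x ∈ S i ∧ y ∈ S i)).card = lam) :
    Des S (k : ℤ) (lam : ℤ) ∧ 1 ≤ lam := by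
  set v := Fintype.card α with hvdef
  have hpair : ∀ x y : α, x ≠ y → ∑ b, ind S b x * ind S b y = (lam : ℤ) := by
    intro x y hxy
    rw [← hp x y hxy, Finset.natCast_card_filter]
    apply Finset.sum_congr rfl
    intro b _
    unfold ind
    by_cases h1 : x ∈ S b <;> by_cases h2 : y ∈ S b <;> simp [h1, h2]
  have hrow : ∀ b, ∑ x, ind S b x = (k : ℤ) := by
    intro b
    have := card_inter S (Finset.univ) b
    rw [Finset.univ_inter, hs b] at this
    exact this.symm
  have hr : ∀ x : α, ((k : ℤ) - 1) * ∑ b, ind S b x = ((v : ℤ) - 1) * lam := by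
    intro x
    have h1 : ∑ y ∈ Finset.univ.erase x, ∑ b, ind S b x * ind S b y = ((v : ℤ) - 1) * lam := by
      rw [Finset.sum_congr rfl (fun y hy => hpair x y (Finset.ne_of_mem_erase hy).symm)]
      rw [Finset.sum_const, Finset.card_erase_of_mem (Finset.mem_univ x), Finset.card_univ,
        ← hvdef, nsmul_eq_mul]
      push_cast [Nat.one_le_iff_ne_zero.2 hv.ne']
      ring
    have h2 : ∑ y, ∑ b, ind S b x * ind S b y = (k : ℤ) * ∑ b, ind S b x := by
      rw [Finset.sum_comm, Finset.mul_sum]
      apply Finset.sum_congr rfl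
      intro b _
      rw [← Finset.mul_sum, hrow b]; ring
    rw [← Finset.add_sum_erase _ _ (Finset.mem_univ x), h1] at h2
    simp only [ind_sq] at h2
    linarith
  have hsum : ∑ x : α, ∑ b, ind S b x = (v : ℤ) * k := by
    rw [Finset.sum_comm, Finset.sum_congr rfl (fun b _ => hrow b)]
    simp [hc]
  have htot : ((v : ℤ) - 1) * lam = (k : ℤ) * (k - 1) := by
    have h1 : ∑ x : α, ((k : ℤ) - 1) * ∑ b, ind S b x = (v : ℤ) * (((v : ℤ) - 1) * lam) := by
      rw [Finset.sum_congr rfl (fun x _ => hr x)]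
      simp [hvdef]
    rw [← Finset.mul_sum, hsum] at h1
    have hv' : (0 : ℤ) < v := by exact_mod_cast hv
    have h2 : (v : ℤ) * (((v : ℤ) - 1) * lam) = (v : ℤ) * ((k : ℤ) * (k - 1)) := by
      rw [← h1]; ring
    exact mul_left_cancel₀ hv'.ne' h2
  have hk' : (2 : ℤ) ≤ k := by exact_mod_cast hk
  have hrep : ∀ x : α, ∑ b, ind S b x = (k : ℤ) := by
    intro x
    have h1 := hr x
    rw [htot] at h1
    have h2 : ((k : ℤ) - 1) * ∑ b, ind S b x = ((k : ℤ) - 1) * k := by rw [h1]; ring
    exact mul_left_cancel₀ (by omega) h2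
  refine ⟨⟨fun b => by rw [hs b], ?_, ?_⟩, ?_⟩
  · intro x y
    by_cases hxy : x = y
    · subst hxy
      simp only [ind_sq, if_true]
      exact hrep x
    · rw [if_neg hxy]; exact hpair x y hxy
  · rw [← hc]
    linarith
  · rcases Nat.eq_zero_or_pos lam with h0 | h0
    · exfalso
      rw [h0] at htot
      simp at htot
      rcases htot with h | h
      · omega
      · have : (k : ℤ) = 1 := by linarith
        omega
    · exact h0

/-- two values `p`, `q` of the defects -/
lemma two_values {S : β → Finset α} {k lam : ℤ} (h : Des S k lam) (hl : 1 ≤ lam)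
    (X : Finset α) (hX : (X.card : ℤ) = k) (hne : ∀ b, S b ≠ X) (hn : 0 < k - lam) (p q : ℤ)
    (hpq : ∀ b, dd S lam X b = p ∨ dd S lam X b = q) :
    k ≤ 3 * lam * (lam - 1) := by
  wlog hle : p ≤ q generalizing p q with H
  · exact H q p (fun b => (hpq b).symm) (by omega)
  have hub := dd_le h X hX hne
  -- not all defects are nonnegative
  have hneg : ∃ b, dd S lam X b ≤ -1 := by
    by_contra hcon
    push Not at hcon
    have h0 : ∀ b, 0 ≤ dd S lam X b := fun b => by have := hcon b; omega
    have h1 : ∑ b, dd S lam X b ^ 2 ≤ ∑ b, (k - lam - 1) * dd S lam X b := by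
      apply Finset.sum_le_sum
      intro b _
      have := hub b
      have := h0 b
      nlinarith
    rw [← Finset.mul_sum, sum_dd_sq h X hX, sum_dd h X hX] at h1
    nlinarith
  obtain ⟨b₀, hb₀⟩ := hneg
  obtain ⟨b₁, _, hb₁⟩ := exists_max h X hX hn
  have hp1 : p ≤ -1 := by
    rcases hpq b₀ with h' | h' <;> omega
  have hq1 : 1 ≤ q := by
    rcases hpq b₁ with h' | h' <;> omega
  -- the quadratic identity
  have hquad : (k - lam) ^ 2 - (p + q) * (k - lam) + p * q * (Fintype.card β : ℤ) = 0 := by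
    have h1 : ∑ b, (dd S lam X b - p) * (dd S lam X b - q) = 0 := by
      apply Finset.sum_eq_zero
      intro b _
      rcases hpq b with h' | h' <;> rw [h'] <;> ring
    have h2 : ∀ b, (dd S lam X b - p) * (dd S lam X b - q) =
        dd S lam X b ^ 2 - (p + q) * dd S lam X b + p * q := by intro b; ring
    rw [Finset.sum_congr rfl (fun b _ => h2 b), Finset.sum_add_distrib, Finset.sum_sub_distrib,
      ← Finset.mul_sum, sum_dd_sq h X hX, sum_dd h X hX] at h1
    simp only [Finset.sum_const, Finset.card_univ, nsmul_eq_mul] at h1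
    linarith
  obtain ⟨x, hx⟩ : ∃ x, x = -p := ⟨_, rfl⟩
  obtain ⟨n, hnn⟩ : ∃ n, n = k - lam := ⟨_, rfl⟩
  have hp' : p = -x := by omega
  have hk' : k = n + lam := by omega
  have htot := h.tot
  rw [hk'] at htot
  rw [← hnn, hp'] at hquad
  have hx1 : 1 ≤ x := by omega
  have hn1 : 1 ≤ n := by omega
  have hEq : (lam - x * q) * n ^ 2 =
      n * (x * q * (2 * lam - 1) + lam * (q - x)) + x * q * lam ^ 2 := by
    have e1 : lam * (n ^ 2 - (q - x) * n) = x * q * ((Fintype.card β : ℤ) * lam) := by
      linear_combination lam * hquad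
    rw [htot] at e1
    linear_combination e1
  have hxq : 1 ≤ x * q := by nlinarith
  have hpos : 0 < (lam - x * q) * n ^ 2 := by
    rw [hEq]
    have e1 : 0 < x * q * lam ^ 2 := by positivity
    have e2 : 0 ≤ x * q * (2 * lam - 1) + lam * (q - x) := by
      have : x * (q * (2 * lam - 1) - lam) + lam * q =
        x * q * (2 * lam - 1) + lam * (q - x) := by ring
      rw [← this]
      have e3 : 0 ≤ q * (2 * lam - 1) - lam := by nlinarith
      positivity
    have e4 : 0 ≤ n * (x * q * (2 * lam - 1) + lam * (q - x)) :=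
      mul_nonneg (by omega) e2
    linarith
  have hlt : 0 < lam - x * q := by
    by_contra hcon
    push Not at hcon
    have : (lam - x * q) * n ^ 2 ≤ 0 := mul_nonpos_of_nonpos_of_nonneg hcon (sq_nonneg n)
    linarith
  have hxq2 : x * q ≤ lam - 1 := by omega
  have hq2 : q ≤ lam - 1 := by nlinarith
  have hlam2 : 2 ≤ lam := by omega
  have hmain : n ^ 2 ≤ n * ((lam - 1) * (2 * lam - 1) + lam * (lam - 2)) + (lam - 1) * lam ^ 2 := by
    have e1 : n ^ 2 ≤ (lam - x * q) * n ^ 2 := by nlinarith [sq_nonneg n]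
    have e2 : x * q * (2 * lam - 1) + lam * (q - x) ≤
        (lam - 1) * (2 * lam - 1) + lam * (lam - 2) := by
      have e3 : x * q * (2 * lam - 1) ≤ (lam - 1) * (2 * lam - 1) :=
        mul_le_mul_of_nonneg_right hxq2 (by omega)
      have e4 : lam * (q - x) ≤ lam * (lam - 2) :=
        mul_le_mul_of_nonneg_left (by omega) (by omega)
      linarith
    have e5 : x * q * lam ^ 2 ≤ (lam - 1) * lam ^ 2 :=
      mul_le_mul_of_nonneg_right hxq2 (sq_nonneg lam)
    have e6 : n * (x * q * (2 * lam - 1) + lam * (q - x)) ≤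
        n * ((lam - 1) * (2 * lam - 1) + lam * (lam - 2)) :=
      mul_le_mul_of_nonneg_left e2 (by omega)
    linarith
  rw [hk']
  by_contra hcon
  push Not at hcon
  have f1 : 3 * lam ^ 2 - 4 * lam + 1 ≤ n := by nlinarith
  have f2 : lam ≤ n - ((lam - 1) * (2 * lam - 1) + lam * (lam - 2)) := by nlinarith
  have f3 : n * lam ≤ n * (n - ((lam - 1) * (2 * lam - 1) + lam * (lam - 2))) :=
    mul_le_mul_of_nonneg_left f2 (by omega)
  have f4 : n * lam ≤ (lam - 1) * lam * lam := by nlinarith
  have f5 : n ≤ (lam - 1) * lam := le_of_mul_le_mul_right f4 (by omega)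
  nlinarith

end

end Pool.Agent.H27D
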